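import Pool.Agent.SixCubes.Stmts

namespace Pool.SixCubes

theorem fi_toNat (n : ℕ) (a b c d e : ℤ) (ha : 0 < a) (hb : 0 < b) (hc : 0 < c)
    (hd : 0 < d) (he : 0 < e) (h : (n : ℤ) = a ^ 3 + b ^ 3 + c ^ 3 + d ^ 3 + e ^ 3) : Five n := by
  lift a to ℕ using ha.le
  lift b to ℕ using hb.le
  lift c to ℕ using hc.le
  lift d to ℕ using hd.le
  lift e to ℕ using he.le
  exact ⟨a, b, c, d, e, by exact_mod_cast ha, by exact_mod_cast hb, by exact_mod_cast hc,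
    by exact_mod_cast hd, by exact_mod_cast he, by exact_mod_cast h⟩

theorem fi_loe (α β : ℤ) (h : (α ^ 2 + α * β + β ^ 2) % 2 = 1) :
    ∃ u v : ℤ, α ^ 2 + α * β + β ^ 2 = u ^ 2 + 3 * v ^ 2 := by
  rcases Int.even_or_odd' α with ⟨k, hk | hk⟩
  · exact ⟨β + k, k, by subst hk; ring⟩
  · rcases Int.even_or_odd' β with ⟨l, hl | hl⟩
    · exact ⟨α + l, l, by subst hl; ring⟩
    · exact ⟨k - l, k + l + 1, by subst hk; subst hl; ring⟩

theorem fi_par (x y z v : ℤ) (h : (x ^ 2 + y ^ 2 + z ^ 2) % 4 = 2) :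
    ∃ x' y' z' τ : ℤ, x' ^ 2 + y' ^ 2 + z' ^ 2 = x ^ 2 + y ^ 2 + z ^ 2 ∧
      x' + y' + z' = 2 * τ ∧ (τ + v) % 2 = 1 := by
  have key : ∀ t : ℤ, (t % 2 = 0 ∧ t ^ 2 % 4 = 0) ∨ (t % 2 = 1 ∧ t ^ 2 % 4 = 1) := by
    intro t
    rcases Int.even_or_odd' t with ⟨k, hk | hk⟩
    · left
      constructor
      · omega
      · subst hk; ring_nf; omega
    · right
      constructor
      · omega
      · subst hk; ring_nf; omega
  have hx := key x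
  have hy := key y
  have hz := key z
  generalize hX : x ^ 2 = X at *
  generalize hY : y ^ 2 = Y at *
  generalize hZ : z ^ 2 = Z at *
  by_cases hxo : x % 2 = 1
  · obtain ⟨τ, hτ⟩ : ∃ τ, x + y + z = 2 * τ := ⟨(x + y + z) / 2, by omega⟩
    by_cases hp : (τ + v) % 2 = 1
    · exact ⟨x, y, z, τ, by rw [hX, hY, hZ], hτ, hp⟩
    · refine ⟨-x, y, z, τ - x, ?_, by linarith, by omega⟩
      rw [neg_sq, hX, hY, hZ]
  · obtain ⟨τ, hτ⟩ : ∃ τ, x + y + z = 2 * τ := ⟨(x + y + z) / 2, by omega⟩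
    have hyo : y % 2 = 1 := by omega
    by_cases hp : (τ + v) % 2 = 1
    · exact ⟨x, y, z, τ, by rw [hX, hY, hZ], hτ, hp⟩
    · refine ⟨x, -y, z, τ - y, ?_, by linarith, by omega⟩
      rw [neg_sq, hX, hY, hZ]

theorem fi_ineq (A B m μ v : ℤ) (hA0 : 0 ≤ A) (hA13 : A ≤ 13 * v) (hv : 700 ≤ v)
    (h1 : 2 * v ^ 2 < m) (hAμ : A = m - 4 * μ) (hμ : B = m + 2 * μ) :
    0 < μ ∧ A * B < μ ^ 2 ∧ 0 < m - 2 * μ := by
  have h700 : 700 * v ≤ v ^ 2 := by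
    rw [sq]; exact mul_le_mul_of_nonneg_right hv (by linarith)
  have hmA : 26 * A < m := by linarith
  have hm0 : 0 < m := by linarith
  have hμ0 : 0 < μ := by linarith
  refine ⟨hμ0, ?_, by linarith⟩
  have h6 : 26 * A * m ≤ m * m := mul_le_mul_of_nonneg_right hmA.le hm0.le
  have h5 : A * (2 * B) ≤ A * (3 * m) := mul_le_mul_of_nonneg_left (by linarith) hA0
  have h7 : 16 * μ ^ 2 = m * m - 2 * (A * m) + A * A := by
    have : μ * 4 = m - A := by linarith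
    calc 16 * μ ^ 2 = (μ * 4) * (μ * 4) := by ring
      _ = (m - A) * (m - A) := by rw [this]
      _ = _ := by ring
  have h8 : 0 ≤ A * A := mul_self_nonneg A
  have h9 : 0 < m * m := mul_pos hm0 hm0
  have h10 : 16 * (A * B) ≤ 24 * (A * m) := by linarith
  have h11 : 26 * (A * m) ≤ m * m := by linarith
  rcases hA0.eq_or_lt with h0 | h0
  · rw [← h0, zero_mul]; positivity
  · have h12 : 0 < A * A := mul_pos h0 h0
    linarith

theorem fi_core (m v x y z τ : ℤ) (hm : m % 2 = 1) (hv : 700 ≤ v) (h1 : 4 * v ^ 2 < 2 * m)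
    (h2 : 2 * m ≤ 4 * v ^ 2 + 8 * v + 4)
    (hs : x ^ 2 + y ^ 2 + z ^ 2 = 2 * m - 4 * v ^ 2) (ht : x + y + z = 2 * τ)
    (hp : (τ + v) % 2 = 1) :
    ∃ a b c d e : ℤ, 0 < a ∧ 0 < b ∧ 0 < c ∧ 0 < d ∧ 0 < e ∧
      m ^ 3 = a ^ 3 + b ^ 3 + c ^ 3 + d ^ 3 + e ^ 3 := by
  set A : ℤ := (x - y) ^ 2 + (x - y) * (y - z) + (y - z) ^ 2 with hA
  set B : ℤ := τ ^ 2 + 3 * v ^ 2 with hB
  have hAB : A + 2 * B = 3 * m := by
    have h3 : 2 * A = 3 * (x ^ 2 + y ^ 2 + z ^ 2) - (x + y + z) ^ 2 := by rw [hA]; ring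
    rw [hs, ht] at h3
    have h4 : 2 * (A + 2 * B) = 2 * (3 * m) := by rw [hB]; linarith
    linarith
  have hBodd : B % 2 = 1 := by
    rcases Int.even_or_odd' τ with ⟨k, hk | hk⟩ <;> rcases Int.even_or_odd' v with ⟨l, hl | hl⟩
    · omega
    · rw [hB, hk, hl]; ring_nf; omega
    · rw [hB, hk, hl]; ring_nf; omega
    · omega
  have hAodd : A % 2 = 1 := by omega
  obtain ⟨u, s, hus⟩ := fi_loe (x - y) (y - z) hAodd
  have hA2 : A = u ^ 2 + 3 * s ^ 2 := hus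
  obtain ⟨μ, hμ⟩ : ∃ μ, B = m + 2 * μ := ⟨(B - m) / 2, by omega⟩
  have hAμ : A = m - 4 * μ := by linarith
  set p : ℤ := u * τ - 3 * (s * v) with hpdef
  set q : ℤ := u * v + s * τ with hqdef
  have hpq : p ^ 2 + 3 * q ^ 2 = A * B := by rw [hpdef, hqdef, hA2, hB]; ring
  have hA0 : 0 ≤ A := by rw [hA2]; positivity
  have hAle : 2 * A ≤ 3 * (2 * m - 4 * v ^ 2) := by
    have h3 : 2 * A = 3 * (x ^ 2 + y ^ 2 + z ^ 2) - (x + y + z) ^ 2 := by rw [hA]; ring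
    have h4 := sq_nonneg (x + y + z)
    rw [hs] at h3
    linarith
  have hA13 : A ≤ 13 * v := by linarith
  obtain ⟨hμ0, hlt, hmpos⟩ := fi_ineq A B m μ v hA0 hA13 hv (by linarith) hAμ hμ
  have hp0 := sq_nonneg p
  have hq0 := sq_nonneg q
  have hpp : p ^ 2 < μ ^ 2 := by linarith
  have hqq : q ^ 2 < μ ^ 2 := by linarith
  have hpa := abs_lt_of_sq_lt_sq' hpp hμ0.le
  have hqa := abs_lt_of_sq_lt_sq' hqq hμ0.le
  refine ⟨m - 2 * μ, μ + p, μ - p, 3 * μ + q, 3 * μ - q, hmpos, by linarith [hpa.1],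
    by linarith [hpa.2], by linarith [hqa.1], by linarith [hqa.2], ?_⟩
  have h9 : p ^ 2 + 3 * q ^ 2 = (m - 4 * μ) * (m + 2 * μ) := by rw [hpq, hAμ, hμ]
  linear_combination (-6 * μ) * h9

theorem fi (h : Stmt_T2) : Stmt_Five := by
  refine ⟨2 ^ 20, fun m hm hodd => ?_⟩
  set s := Nat.sqrt (2 * m - 1) with hs
  have hs1 : s * s ≤ 2 * m - 1 := Nat.sqrt_le _
  have hs2 : 2 * m - 1 < (s + 1) * (s + 1) := Nat.lt_succ_sqrt _
  obtain ⟨v, hv⟩ : ∃ v, v = s / 2 := ⟨_, rfl⟩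
  have hv1 : 2 * v ≤ s := by omega
  have hv2 : s ≤ 2 * v + 1 := by omega
  have h1 : 4 * v ^ 2 < 2 * m := by
    have : (2 * v) * (2 * v) ≤ s * s := Nat.mul_le_mul hv1 hv1
    have h2 : 4 * v ^ 2 = (2 * v) * (2 * v) := by ring
    omega
  have h2 : 2 * m ≤ 4 * v ^ 2 + 8 * v + 4 := by
    have : (s + 1) * (s + 1) ≤ (2 * v + 2) * (2 * v + 2) := Nat.mul_le_mul (by omega) (by omega)
    have h2 : 4 * v ^ 2 + 8 * v + 4 = (2 * v + 2) * (2 * v + 2) := by ring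
    omega
  have hv3 : 700 ≤ v := by
    by_contra hcon
    have hlt : v ≤ 699 := by omega
    have : v ^ 2 ≤ 699 ^ 2 := Nat.pow_le_pow_left hlt 2
    norm_num at hm this
    omega
  have hmod : (2 * m - 4 * v ^ 2) % 4 = 2 := by omega
  obtain ⟨x, y, z, hxyz⟩ := h _ hmod
  have hcast : ((2 * m - 4 * v ^ 2 : ℕ) : ℤ) = 2 * (m : ℤ) - 4 * (v : ℤ) ^ 2 := by
    rw [Nat.cast_sub h1.le]; push_cast; ring
  rw [hcast] at hxyz
  have hsq : (x ^ 2 + y ^ 2 + z ^ 2) % 4 = 2 := by rw [← hxyz]; omega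
  obtain ⟨x', y', z', τ, hsum, hlin, hpar⟩ := fi_par x y z v hsq
  obtain ⟨a, b, c, d, e, ha, hb, hc, hd, he, heq⟩ := fi_core (m : ℤ) v x' y' z' τ (by omega)
    (by exact_mod_cast hv3) (by exact_mod_cast h1) (by exact_mod_cast h2)
    (by rw [hsum, ← hxyz]) hlin hpar
  exact fi_toNat _ a b c d e ha hb hc hd he (by push_cast; exact heq)

end Pool.SixCubes
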