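import Pool.Agent.SixCubes.Stmts

/-!
Module `Fin`: assembly by scaling.
-/

namespace Pool.SixCubes

lemma Fin_five_scale {k s : ℕ} (hs : 0 < s) (h : Five k) : Five (s ^ 3 * k) := by
  obtain ⟨a, b, c, d, e, ha, hb, hc, hd, he, rfl⟩ := h
  refine ⟨s * a, s * b, s * c, s * d, s * e, by positivity, by positivity, by positivity,
    by positivity, by positivity, by ring⟩

lemma Fin_six_scale {k s : ℕ} (hs : 0 < s) (h : Six k) : Six (s ^ 3 * k) := by
  obtain ⟨a, b, c, d, e, f, ha, hb, hc, hd, he, hf, rfl⟩ := h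
  refine ⟨s * a, s * b, s * c, s * d, s * e, s * f, by positivity, by positivity, by positivity,
    by positivity, by positivity, by positivity, by ring⟩

lemma Fin_five_64 : Five (4 ^ 3) := ⟨3, 3, 2, 1, 1, by norm_num, by norm_num, by norm_num,
  by norm_num, by norm_num, by norm_num⟩

lemma Fin_six_512 : Six (8 ^ 3) := ⟨7, 5, 3, 2, 2, 1, by norm_num, by norm_num, by norm_num,
  by norm_num, by norm_num, by norm_num, by norm_num⟩

lemma Fin_split {x M : ℕ} (k : ℕ) (hM : 0 < M) (hx : 2 ^ k * M ≤ x) :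
    (∃ s x' : ℕ, M ≤ x' ∧ x' % 2 = 1 ∧ x = 2 ^ s * x') ∨ (2 ^ k ∣ x) := by
  have hx0 : x ≠ 0 := by
    have : 0 < 2 ^ k * M := by positivity
    omega
  obtain ⟨s, x', hodd, hxe⟩ := Nat.exists_eq_two_pow_mul_odd hx0
  by_cases hc : M ≤ x'
  · exact Or.inl ⟨s, x', hc, Nat.odd_iff.mp hodd, hxe⟩
  · right
    have hlt : x' < M := not_le.mp hc
    have hks : k ≤ s := by
      by_contra hks
      have h1 : 2 ^ s ≤ 2 ^ k := Nat.pow_le_pow_right (by norm_num) (by omega)
      have h2 : x < 2 ^ k * M := by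
        rw [hxe]
        calc 2 ^ s * x' < 2 ^ s * M := Nat.mul_lt_mul_of_pos_left hlt (by positivity)
          _ ≤ 2 ^ k * M := Nat.mul_le_mul_right _ h1
      omega
    rw [hxe]
    exact Dvd.dvd.mul_right (pow_dvd_pow 2 hks) x'

/-- All large cubes are sums of five positive cubes. -/
lemma Fin_cube5 (h5 : Stmt_Five) : ∃ L : ℕ, ∀ x : ℕ, L ≤ x → Five (x ^ 3) := by
  obtain ⟨M, hM⟩ := h5
  refine ⟨2 ^ 2 * (M + 1), fun x hx => ?_⟩
  rcases Fin_split 2 (Nat.succ_pos M) hx with ⟨s, x', h1, h2, h3⟩ | h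
  · have := Fin_five_scale (s := 2 ^ s) (by positivity) (hM x' (by omega) h2)
    rw [h3, mul_pow]
    exact this
  · obtain ⟨c, rfl⟩ := h
    have hc : 0 < c := by
      rcases Nat.eq_zero_or_pos c with h | h
      · subst h; simp at hx
      · exact h
    have := Fin_five_scale hc Fin_five_64
    have e : (2 ^ 2 * c) ^ 3 = c ^ 3 * 4 ^ 3 := by ring
    rw [e]; exact this

/-- All large cubes are sums of six positive cubes. -/
lemma Fin_cube6 (h6 : Stmt_Six) : ∃ L : ℕ, ∀ x : ℕ, L ≤ x → Six (x ^ 3) := by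
  obtain ⟨M, hM⟩ := h6
  refine ⟨2 ^ 3 * (M + 1), fun x hx => ?_⟩
  rcases Fin_split 3 (Nat.succ_pos M) hx with ⟨s, x', h1, h2, h3⟩ | h
  · have := Fin_six_scale (s := 2 ^ s) (by positivity) (hM x' (by omega) h2)
    rw [h3, mul_pow]
    exact this
  · obtain ⟨c, rfl⟩ := h
    have hc : 0 < c := by
      rcases Nat.eq_zero_or_pos c with h | h
      · subst h; simp at hx
      · exact h
    have := Fin_six_scale hc Fin_six_512
    have e : (2 ^ 3 * c) ^ 3 = c ^ 3 * 8 ^ 3 := by ring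
    rw [e]; exact this

lemma Fin_add {a x : ℕ} (hx : 0 < x) (h : Five a) : Six (a + x ^ 3) := by
  obtain ⟨p, q, r, s, t, hp, hq, hr, hs, ht, rfl⟩ := h
  exact ⟨p, q, r, s, t, x, hp, hq, hr, hs, ht, hx, rfl⟩

theorem fin (h5 : Stmt_Five) (h6 : Stmt_Six) : Stmt_Main := by
  obtain ⟨L5, H5⟩ := Fin_cube5 h5
  obtain ⟨L6, H6⟩ := Fin_cube6 h6
  refine ⟨2 * (L5 + L6 + 1) ^ 3, ?_⟩
  rintro n hn ⟨x, y, hx, rfl⟩
  -- the larger one is at least `L5 + L6 + 1`
  have key : ∀ z : ℕ, (L5 + L6 + 1) ^ 3 ≤ z ^ 3 → L5 + L6 + 1 ≤ z := by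
    intro z hz
    exact (Nat.pow_le_pow_iff_left (by norm_num)).mp hz
  rcases Nat.eq_zero_or_pos y with hy | hy
  · subst hy
    have h1 : L5 + L6 + 1 ≤ x := key x (by
      have : x ^ 3 + 0 ^ 3 = x ^ 3 := by ring
      rw [this] at hn
      have := Nat.zero_le ((L5 + L6 + 1) ^ 3)
      omega)
    have := H6 x (by omega)
    simpa using this
  · rcases le_total x y with hxy | hxy
    · have hle : x ^ 3 ≤ y ^ 3 := Nat.pow_le_pow_left hxy 3
      have h1 : L5 + L6 + 1 ≤ y := key y (by omega)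
      have := Fin_add hx (H5 y (by omega))
      rw [add_comm]
      exact this
    · have hle : y ^ 3 ≤ x ^ 3 := Nat.pow_le_pow_left hxy 3
      have h1 : L5 + L6 + 1 ≤ x := key x (by omega)
      exact Fin_add hy (H5 x (by omega))

end Pool.SixCubes
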