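import Pool.Agent.SixCubes.Stmts

/-!
Module `QRa`: Dirichlet primes and Jacobi reciprocity for the class 2 modulo 4.
-/

namespace Pool.SixCubes

open NumberTheorySymbols

/-- A prime in a progression, in the form used here. -/
lemma QRa_dirichlet {m c : ℕ} (hm : 0 < m) (hcm : c < m) (hc : Nat.Coprime c m) :
    ∃ j p : ℕ, p.Prime ∧ p = m * j + c := by
  have : NeZero m := ⟨hm.ne'⟩
  have hu : IsUnit ((c : ℕ) : ZMod m) := (ZMod.isUnit_iff_coprime c m).mpr hc
  obtain ⟨p, -, hp, hpc⟩ := Nat.forall_exists_prime_gt_and_eq_mod hu m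
  have h1 : p % m = c := by
    have := (ZMod.natCast_eq_natCast_iff' p c m).mp hpc
    rw [this, Nat.mod_eq_of_lt hcm]
  refine ⟨p / m, p, hp, ?_⟩
  have := Nat.div_add_mod p m
  omega

/-- A square root modulo `p` from the Jacobi symbol. -/
lemma QRa_sqrt {p d : ℕ} (hp : p.Prime) (h : J(-(d : ℤ) | p) = 1) :
    ∃ t : ℤ, (p : ℤ) ∣ t ^ 2 + d := by
  have : Fact p.Prime := ⟨hp⟩
  obtain ⟨r, hr⟩ := ZMod.isSquare_of_jacobiSym_eq_one h
  refine ⟨(r.val : ℤ), ?_⟩
  rw [← ZMod.intCast_zmod_eq_zero_iff_dvd]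
  push_cast
  rw [ZMod.natCast_zmod_val]
  push_cast at hr
  rw [sq, ← hr]
  ring

theorem qra : Stmt_QRa := by
  intro n hn
  have hn2 : 2 ≤ n := by omega
  have hcop : Nat.Coprime (n - 1) (4 * n) := by
    apply Nat.Coprime.mul_right
    · have h2 : Nat.Coprime (n - 1) 2 := by
        rw [Nat.coprime_two_right]
        exact Nat.odd_iff.mpr (by omega)
      have : (4 : ℕ) = 2 * 2 := by norm_num
      rw [this]
      exact Nat.Coprime.mul_right h2 h2
    · have h3 : Nat.Coprime (n - 1) (n - 1 + 1) := by simp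
      rwa [Nat.sub_add_cancel (by omega)] at h3
  obtain ⟨j, p, hp, hpe⟩ := QRa_dirichlet (m := 4 * n) (c := n - 1) (by omega) (by omega) hcop
  have hpn : p + 1 = (4 * j + 1) * n := by
    have : p + 1 = 4 * n * j + n := by omega
    rw [this]; ring
  have hp4 : p % 4 = 1 := by
    have : p = 4 * (n * j) + (n - 1) := by rw [hpe]; ring
    omega
  have hpodd : Odd p := Nat.odd_iff.mpr (by omega)
  have hdodd : Odd (4 * j + 1) := Nat.odd_iff.mpr (by omega)
  have hd4 : (4 * j + 1) % 4 = 1 := by omega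
  have hJ : J(-((4 * j + 1 : ℕ) : ℤ) | p) = 1 := by
    rw [jacobiSym.neg _ hpodd, ZMod.χ₄_nat_one_mod_four hp4, one_mul,
      jacobiSym.quadratic_reciprocity_one_mod_four hd4 hpodd]
    have hmod : ((p : ℕ) : ℤ) % ((4 * j + 1 : ℕ) : ℤ) = (-1) % ((4 * j + 1 : ℕ) : ℤ) := by
      apply Int.ModEq.symm
      rw [Int.modEq_iff_dvd]
      refine ⟨n, ?_⟩
      have : ((p : ℕ) : ℤ) + 1 = ((4 * j + 1 : ℕ) : ℤ) * n := by exact_mod_cast hpn
      linarith
    rw [jacobiSym.mod_left' hmod, jacobiSym.at_neg_one hdodd, ZMod.χ₄_nat_one_mod_four hd4]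
  obtain ⟨t, a, ha⟩ := QRa_sqrt hp hJ
  refine ⟨((4 * j + 1 : ℕ) : ℤ), t, a, by positivity, ?_⟩
  have : ((p : ℕ) : ℤ) + 1 = ((4 * j + 1 : ℕ) : ℤ) * n := by exact_mod_cast hpn
  rw [ha, ← this]
  ring

end Pool.SixCubes
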