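import Pool.Agent.SixCubes.Stmts

/-!
Module `QRb`: Dirichlet primes and Jacobi reciprocity for the class 3 modulo 8.
-/

namespace Pool.SixCubes

open NumberTheorySymbols

/-- A prime in a progression, in the form used here. -/
lemma QRb_dirichlet {m c : ℕ} (hm : 0 < m) (hcm : c < m) (hc : Nat.Coprime c m) :
    ∃ j p : ℕ, p.Prime ∧ p = m * j + c := by
  have : NeZero m := ⟨hm.ne'⟩
  have hu : IsUnit ((c : ℕ) : ZMod m) := (ZMod.isUnit_iff_coprime c m).mpr hc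
  obtain ⟨p, -, hp, hpc⟩ := Nat.forall_exists_prime_gt_and_eq_mod hu m
  have h1 : p % m = c := by
    have := (ZMod.natCast_eq_natCast_iff' p c m).mp hpc
    rw [this, Nat.mod_eq_of_lt hcm]
  refine ⟨p / m, p, hp, ?_⟩
  have := Nat.div_add_mod p m
  omega

/-- A square root modulo `p` from the Jacobi symbol. -/
lemma QRb_sqrt {p d : ℕ} (hp : p.Prime) (h : J(-(d : ℤ) | p) = 1) :
    ∃ t : ℤ, (p : ℤ) ∣ t ^ 2 + d := by
  have : Fact p.Prime := ⟨hp⟩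
  obtain ⟨r, hr⟩ := ZMod.isSquare_of_jacobiSym_eq_one h
  refine ⟨(r.val : ℤ), ?_⟩
  rw [← ZMod.intCast_zmod_eq_zero_iff_dvd]
  push_cast
  rw [ZMod.natCast_zmod_val]
  push_cast at hr
  rw [sq, ← hr]
  ring

theorem qrb : Stmt_QRb := by
  intro n hn
  obtain ⟨k, rfl⟩ : ∃ k, n = 8 * k + 3 := ⟨n / 8, by omega⟩
  -- `(n - 1) / 2 = 4 * k + 1`
  have hcop : Nat.Coprime (4 * k + 1) (4 * (8 * k + 3)) := by
    apply Nat.Coprime.mul_right
    · have h2 : Nat.Coprime (4 * k + 1) 2 := by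
        rw [Nat.coprime_two_right]
        exact Nat.odd_iff.mpr (by omega)
      have : (4 : ℕ) = 2 * 2 := by norm_num
      rw [this]
      exact Nat.Coprime.mul_right h2 h2
    · have e : 8 * k + 3 = 1 + 2 * (4 * k + 1) := by ring
      rw [e]
      have := (Nat.coprime_add_mul_right_right (4 * k + 1) 1 2).mpr (Nat.coprime_one_right _)
      exact this
  obtain ⟨j, p, hp, hpe⟩ := QRb_dirichlet (m := 4 * (8 * k + 3)) (c := 4 * k + 1)
    (by omega) (by omega) hcop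
  have hpn : 2 * p + 1 = (8 * j + 1) * (8 * k + 3) := by
    rw [hpe]; ring
  have hp4 : p % 4 = 1 := by
    have : p = 4 * ((8 * k + 3) * j + k) + 1 := by rw [hpe]; ring
    omega
  have hpodd : Odd p := Nat.odd_iff.mpr (by omega)
  have hdodd : Odd (8 * j + 1) := Nat.odd_iff.mpr (by omega)
  have hd4 : (8 * j + 1) % 4 = 1 := by omega
  have hJ : J(-((8 * j + 1 : ℕ) : ℤ) | p) = 1 := by
    rw [jacobiSym.neg _ hpodd, ZMod.χ₄_nat_one_mod_four hp4, one_mul,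
      jacobiSym.quadratic_reciprocity_one_mod_four hd4 hpodd]
    have hmod : ((2 : ℤ) * ((p : ℕ) : ℤ)) % ((8 * j + 1 : ℕ) : ℤ)
        = (-1) % ((8 * j + 1 : ℕ) : ℤ) := by
      apply Int.ModEq.symm
      rw [Int.modEq_iff_dvd]
      refine ⟨((8 * k + 3 : ℕ) : ℤ), ?_⟩
      have : 2 * ((p : ℕ) : ℤ) + 1 = ((8 * j + 1 : ℕ) : ℤ) * ((8 * k + 3 : ℕ) : ℤ) := by
        exact_mod_cast hpn
      linarith
    have h1 : J((2 : ℤ) * ((p : ℕ) : ℤ) | 8 * j + 1) = 1 := by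
      rw [jacobiSym.mod_left' hmod, jacobiSym.at_neg_one hdodd, ZMod.χ₄_nat_one_mod_four hd4]
    have h2 : J(2 | 8 * j + 1) = 1 := by
      rw [jacobiSym.at_two hdodd, ZMod.χ₈_nat_eq_if_mod_eight, if_neg (by omega),
        if_pos (by omega)]
    rw [jacobiSym.mul_left, h2, one_mul] at h1
    exact h1
  obtain ⟨t0, ht0⟩ := QRb_sqrt hp hJ
  -- make the root odd
  obtain ⟨t, ht, htodd⟩ : ∃ t : ℤ, (p : ℤ) ∣ t ^ 2 + ((8 * j + 1 : ℕ) : ℤ) ∧ t % 2 = 1 := by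
    rcases Int.emod_two_eq_zero_or_one t0 with h | h
    · refine ⟨t0 + p, ?_, by omega⟩
      have e : (t0 + p) ^ 2 + ((8 * j + 1 : ℕ) : ℤ)
          = (t0 ^ 2 + ((8 * j + 1 : ℕ) : ℤ)) + p * (2 * t0 + p) := by ring
      rw [e]
      exact dvd_add ht0 (dvd_mul_right _ _)
    · exact ⟨t0, ht0, h⟩
  have h2 : (2 : ℤ) ∣ t ^ 2 + ((8 * j + 1 : ℕ) : ℤ) := by
    obtain ⟨s, rfl⟩ : ∃ s, t = 2 * s + 1 := ⟨t / 2, by omega⟩
    refine ⟨2 * s ^ 2 + 2 * s + 4 * j + 1, ?_⟩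
    push_cast
    ring
  have hcop2 : IsCoprime (2 : ℤ) (p : ℤ) := by
    rw [Int.isCoprime_iff_gcd_eq_one]
    have : Nat.Coprime 2 p := Nat.coprime_two_left.mpr hpodd
    exact_mod_cast this
  obtain ⟨a, ha⟩ := hcop2.mul_dvd h2 ht
  refine ⟨((8 * j + 1 : ℕ) : ℤ), t, a, by positivity, ?_⟩
  have : 2 * ((p : ℕ) : ℤ) + 1 = ((8 * j + 1 : ℕ) : ℤ) * ((8 * k + 3 : ℕ) : ℤ) := by
    exact_mod_cast hpn
  rw [ha, ← this]
  ring

end Pool.SixCubes
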