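import Pool.Agent.SixCubes.Stmts

namespace Pool.SixCubes

theorem si_toNat (n : ℕ) (a b c d e f : ℤ) (ha : 0 < a) (hb : 0 < b) (hc : 0 < c)
    (hd : 0 < d) (he : 0 < e) (hf : 0 < f)
    (h : (n : ℤ) = a ^ 3 + b ^ 3 + c ^ 3 + d ^ 3 + e ^ 3 + f ^ 3) : Six n := by
  lift a to ℕ using ha.le
  lift b to ℕ using hb.le
  lift c to ℕ using hc.le
  lift d to ℕ using hd.le
  lift e to ℕ using he.le
  lift f to ℕ using hf.le
  exact ⟨a, b, c, d, e, f, by exact_mod_cast ha, by exact_mod_cast hb, by exact_mod_cast hc,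
    by exact_mod_cast hd, by exact_mod_cast he, by exact_mod_cast hf, by exact_mod_cast h⟩

theorem si_ineq (A B m μ v : ℤ) (hA0 : 0 ≤ A) (hA13 : A ≤ 37 * v) (hv : 2100 ≤ v)
    (h1 : v ^ 2 < 4 * m) (hAμ : A = m - 3 * μ) (hμ : B = m + μ) :
    0 < μ ∧ A * B < μ ^ 2 ∧ 0 < m - 2 * μ := by
  have h700 : 2100 * v ≤ v ^ 2 := by
    rw [sq]; exact mul_le_mul_of_nonneg_right hv (by linarith)
  have hmA : 14 * A < m := by linarith
  have hm0 : 0 < m := by linarith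
  have hμ0 : 0 < μ := by linarith
  refine ⟨hμ0, ?_, by linarith⟩
  have h6 : 14 * A * m ≤ m * m := mul_le_mul_of_nonneg_right hmA.le hm0.le
  have h5 : A * (3 * B) ≤ A * (4 * m) := mul_le_mul_of_nonneg_left (by linarith) hA0
  have h7 : 9 * μ ^ 2 = m * m - 2 * (A * m) + A * A := by
    have : μ * 3 = m - A := by linarith
    calc 9 * μ ^ 2 = (μ * 3) * (μ * 3) := by ring
      _ = (m - A) * (m - A) := by rw [this]
      _ = _ := by ring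
  have h10 : 9 * (A * B) ≤ 12 * (A * m) := by linarith
  have h11 : 14 * (A * m) ≤ m * m := by linarith
  rcases hA0.eq_or_lt with h0 | h0
  · rw [← h0, zero_mul]; positivity
  · have h12 : 0 < A * A := mul_pos h0 h0
    linarith

theorem si_mod (b h : ℤ) (hb : b % 3 ≠ 0) (hh : h % 3 ≠ 0) (hc : (b - h) % 3 ≠ 0) :
    (b - -h) % 3 = 0 := by
  obtain ⟨q, hq⟩ : ∃ q, q = b / 3 := ⟨_, rfl⟩
  obtain ⟨r, hr⟩ : ∃ r, r = h / 3 := ⟨_, rfl⟩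
  have b1 : b = 3 * q + 1 ∨ b = 3 * q + 2 := by omega
  have h1 : h = 3 * r + 1 ∨ h = 3 * r + 2 := by omega
  rcases b1 with rfl | rfl <;> rcases h1 with rfl | rfl <;> omega

theorem si_pair (g k b : ℤ) (hg : g % 2 = 1) (hk : k % 2 = 1) (hg3 : g % 3 ≠ 0)
    (hb : b % 3 ≠ 0) :
    ∃ h y : ℤ, 2 * y ^ 2 + 2 * h ^ 2 = g ^ 2 + k ^ 2 ∧ (b - h) % 3 = 0 := by
  obtain ⟨k', hk'2, hk'⟩ : ∃ k' : ℤ, k' ^ 2 = k ^ 2 ∧ k' % 2 = 1 ∧ (g - k') % 3 ≠ 0 := by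
    by_cases h : (g - k) % 3 = 0
    · exact ⟨-k, by ring, by omega, by omega⟩
    · exact ⟨k, rfl, hk, h⟩
  obtain ⟨hk'1, hk'3⟩ := hk'
  obtain ⟨h, hh⟩ : ∃ h, g - k' = 2 * h := ⟨(g - k') / 2, by omega⟩
  obtain ⟨y, hy⟩ : ∃ y, g + k' = 2 * y := ⟨(g + k') / 2, by omega⟩
  have hge : g = y + h := by linarith
  have hke : k' = y - h := by linarith
  have hs : 2 * y ^ 2 + 2 * h ^ 2 = g ^ 2 + k ^ 2 := by rw [← hk'2, hge, hke]; ring
  have hh3 : h % 3 ≠ 0 := by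
    rw [hh] at hk'3
    omega
  by_cases hc : (b - h) % 3 = 0
  · exact ⟨h, y, hs, hc⟩
  · refine ⟨-h, y, by rw [neg_sq]; exact hs, ?_⟩
    exact si_mod b h hb hh3 hc

theorem si_perm (x y z b : ℤ) (hs : (x ^ 2 + y ^ 2 + z ^ 2) % 8 = 3)
    (h9 : (x ^ 2 + y ^ 2 + z ^ 2) % 9 ≠ 0) (hb : b % 3 ≠ 0) :
    ∃ x' h y' : ℤ, x' ^ 2 + 2 * y' ^ 2 + 2 * h ^ 2 = x ^ 2 + y ^ 2 + z ^ 2 ∧ (b - h) % 3 = 0 := by
  have key : ∀ t : ℤ, (t % 2 = 0 ∧ t ^ 2 % 4 = 0) ∨ (t % 2 = 1 ∧ t ^ 2 % 8 = 1) := by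
    intro t
    have h8 : t % 8 = 0 ∨ t % 8 = 1 ∨ t % 8 = 2 ∨ t % 8 = 3 ∨ t % 8 = 4 ∨ t % 8 = 5 ∨
      t % 8 = 6 ∨ t % 8 = 7 := by omega
    rcases h8 with h | h | h | h | h | h | h | h
    · left; exact ⟨by omega, by rw [sq, Int.mul_emod]; have : t % 4 = 0 := by omega
                                rw [this]; rfl⟩
    · right; exact ⟨by omega, by rw [sq, Int.mul_emod, h]; rfl⟩
    · left; exact ⟨by omega, by rw [sq, Int.mul_emod]; have : t % 4 = 2 := by omega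
                                rw [this]; rfl⟩
    · right; exact ⟨by omega, by rw [sq, Int.mul_emod, h]; rfl⟩
    · left; exact ⟨by omega, by rw [sq, Int.mul_emod]; have : t % 4 = 0 := by omega
                                rw [this]; rfl⟩
    · right; exact ⟨by omega, by rw [sq, Int.mul_emod, h]; rfl⟩
    · left; exact ⟨by omega, by rw [sq, Int.mul_emod]; have : t % 4 = 2 := by omega
                                rw [this]; rfl⟩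
    · right; exact ⟨by omega, by rw [sq, Int.mul_emod, h]; rfl⟩
  have hx := key x
  have hy := key y
  have hz := key z
  have hx2 : x % 2 = 1 := by
    clear h9 hb
    generalize x ^ 2 = X at *
    generalize y ^ 2 = Y at *
    generalize z ^ 2 = Z at *
    omega
  have hy2 : y % 2 = 1 := by
    clear h9 hb
    generalize x ^ 2 = X at *
    generalize y ^ 2 = Y at *
    generalize z ^ 2 = Z at *
    omega
  have hz2 : z % 2 = 1 := by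
    clear h9 hb
    generalize x ^ 2 = X at *
    generalize y ^ 2 = Y at *
    generalize z ^ 2 = Z at *
    omega
  by_cases hx3 : x % 3 = 0
  · by_cases hy3 : y % 3 = 0
    · by_cases hz3 : z % 3 = 0
      · exfalso
        apply h9
        obtain ⟨x1, rfl⟩ : ∃ x1, x = 3 * x1 := ⟨x / 3, by omega⟩
        obtain ⟨y1, rfl⟩ : ∃ y1, y = 3 * y1 := ⟨y / 3, by omega⟩
        obtain ⟨z1, rfl⟩ : ∃ z1, z = 3 * z1 := ⟨z / 3, by omega⟩
        have : (3 * x1) ^ 2 + (3 * y1) ^ 2 + (3 * z1) ^ 2 = 9 * (x1 ^ 2 + y1 ^ 2 + z1 ^ 2) := by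
          ring
        rw [this]
        exact Int.mul_emod_right _ _
      · obtain ⟨h, y', e1, e2⟩ := si_pair z x b hz2 hx2 hz3 hb
        exact ⟨y, h, y', by linarith, e2⟩
    · obtain ⟨h, y', e1, e2⟩ := si_pair y z b hy2 hz2 hy3 hb
      exact ⟨x, h, y', by linarith, e2⟩
  · obtain ⟨h, y', e1, e2⟩ := si_pair x y b hx2 hy2 hx3 hb
    exact ⟨z, h, y', by linarith, e2⟩

theorem si_core (m b x h y : ℤ) (hb : 2100 ≤ b) (h1 : b ^ 2 < 4 * m)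
    (h2 : 4 * m ≤ b ^ 2 + 37 * b) (hs : x ^ 2 + 2 * y ^ 2 + 2 * h ^ 2 = 4 * m - b ^ 2)
    (hbh : (b - h) % 3 = 0) :
    ∃ a b c d e f : ℤ, 0 < a ∧ 0 < b ∧ 0 < c ∧ 0 < d ∧ 0 < e ∧ 0 < f ∧
      m ^ 3 = a ^ 3 + b ^ 3 + c ^ 3 + d ^ 3 + e ^ 3 + f ^ 3 := by
  obtain ⟨w, hw⟩ : ∃ w, b = 3 * w + h := ⟨(b - h) / 3, by omega⟩
  obtain ⟨A, hA⟩ : ∃ A, A = x ^ 2 + 2 * y ^ 2 := ⟨_, rfl⟩
  obtain ⟨B, hB⟩ : ∃ B, B = (w + h) ^ 2 + 2 * w ^ 2 := ⟨_, rfl⟩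
  have h3B : 3 * B = b ^ 2 + 2 * h ^ 2 := by rw [hB, hw]; ring
  have hAB : A + 3 * B = 4 * m := by rw [h3B, hA]; linarith
  obtain ⟨μ, hμ⟩ : ∃ μ, B = m + μ := ⟨B - m, by ring⟩
  have hAμ : A = m - 3 * μ := by linarith
  have hA0 : 0 ≤ A := by rw [hA]; positivity
  have hAle : A ≤ 37 * b := by
    have := sq_nonneg h
    linarith
  obtain ⟨hμ0, hlt, hmpos⟩ := si_ineq A B m μ b hA0 hAle hb h1 hAμ hμ
  obtain ⟨f, hf⟩ : ∃ f, f = x * (w + h) - 2 * (y * w) := ⟨_, rfl⟩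
  obtain ⟨e, he⟩ : ∃ e, e = x * w + y * (w + h) := ⟨_, rfl⟩
  have hfe : f ^ 2 + 2 * e ^ 2 = A * B := by rw [hf, he, hA, hB]; ring
  have hp0 := sq_nonneg f
  have hq0 := sq_nonneg e
  have hpp : f ^ 2 < μ ^ 2 := by linarith
  have hqq : e ^ 2 < μ ^ 2 := by linarith
  have hpa := abs_lt_of_sq_lt_sq' hpp hμ0.le
  have hqa := abs_lt_of_sq_lt_sq' hqq hμ0.le
  refine ⟨m - 2 * μ, 2 * μ, μ + f, μ - f, 2 * μ + e, 2 * μ - e, hmpos, by linarith,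
    by linarith [hpa.1], by linarith [hpa.2], by linarith [hqa.1], by linarith [hqa.2], ?_⟩
  have h9 : f ^ 2 + 2 * e ^ 2 = (m - 3 * μ) * (m + μ) := by rw [hfe, hAμ, hμ]
  linear_combination (-6 * μ) * h9

theorem si (h : Stmt_T3) : Stmt_Six := by
  refine ⟨2 ^ 22, fun m hm hodd => ?_⟩
  obtain ⟨s, hs⟩ : ∃ s, s = Nat.sqrt (4 * m - 1) := ⟨_, rfl⟩
  have hs1 : s * s ≤ 4 * m - 1 := by rw [hs]; exact Nat.sqrt_le _
  have hs2 : 4 * m - 1 < (s + 1) * (s + 1) := by rw [hs]; exact Nat.lt_succ_sqrt _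
  have hs3 : 4000 ≤ s := by
    by_contra hcon
    have hlt : s + 1 ≤ 4000 := by omega
    have := Nat.mul_le_mul hlt hlt
    norm_num at hm this
    omega
  obtain ⟨b0, hb0, hb9⟩ : ∃ b0 : ℕ, (b0 = 1 ∨ b0 = 11) ∧ (4 * m) % 9 ≠ b0 ^ 2 % 9 := by
    by_cases hc : (4 * m) % 9 = 1
    · exact ⟨11, Or.inr rfl, by omega⟩
    · exact ⟨1, Or.inl rfl, by omega⟩
  obtain ⟨q, hq⟩ : ∃ q, q = (s - b0) / 18 := ⟨_, rfl⟩
  obtain ⟨b, hb⟩ : ∃ b, b = 18 * q + b0 := ⟨_, rfl⟩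
  have hbs : b ≤ s := by omega
  have hsb : s < b + 18 := by omega
  have hb2 : 2100 ≤ b := by omega
  have h1 : b ^ 2 < 4 * m := by
    have := Nat.mul_le_mul hbs hbs
    rw [sq]
    omega
  have h2 : 4 * m ≤ b ^ 2 + 37 * b := by
    have := Nat.mul_le_mul (show s + 1 ≤ b + 18 by omega) (show s + 1 ≤ b + 18 by omega)
    have h3 : (b + 18) * (b + 18) = b ^ 2 + 36 * b + 324 := by ring
    omega
  have hbsq8 : b ^ 2 % 8 = 1 := by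
    have : b % 8 = 1 ∨ b % 8 = 3 ∨ b % 8 = 5 ∨ b % 8 = 7 := by omega
    rw [Nat.pow_mod]
    rcases this with h | h | h | h <;> rw [h]
  have hbsq9 : b ^ 2 % 9 = b0 ^ 2 % 9 := by
    have : b % 9 = b0 % 9 := by omega
    rw [Nat.pow_mod, this, ← Nat.pow_mod]
  have hmod : (4 * m - b ^ 2) % 8 = 3 := by omega
  have hmod9 : (4 * m - b ^ 2) % 9 ≠ 0 := by omega
  obtain ⟨x, y, z, hxyz⟩ := h _ hmod
  have hcast : ((4 * m - b ^ 2 : ℕ) : ℤ) = 4 * (m : ℤ) - (b : ℤ) ^ 2 := by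
    rw [Nat.cast_sub h1.le]; push_cast; ring
  have hs8 : (x ^ 2 + y ^ 2 + z ^ 2) % 8 = 3 := by rw [← hxyz]; omega
  have hs9 : (x ^ 2 + y ^ 2 + z ^ 2) % 9 ≠ 0 := by rw [← hxyz]; omega
  have hb3 : (b : ℤ) % 3 ≠ 0 := by omega
  obtain ⟨x', k, y', e1, e2⟩ := si_perm x y z b hs8 hs9 hb3
  obtain ⟨a1, a2, a3, a4, a5, a6, p1, p2, p3, p4, p5, p6, heq⟩ := si_core (m : ℤ) b x' k y'
    (by exact_mod_cast hb2) (by exact_mod_cast h1) (by exact_mod_cast h2)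
    (by rw [e1, ← hxyz, hcast]) e2
  exact si_toNat _ a1 a2 a3 a4 a5 a6 p1 p2 p3 p4 p5 p6 (by push_cast; exact heq)

end Pool.SixCubes
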