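import Pool.Agent.SixCubes.Stmts

/-!
Module `Red`: reduction of positive ternary forms of determinant one.
-/

namespace Pool.SixCubes

/-- A centred residue: shift `B` by a multiple of `A` into the interval `[-A/2, A/2]`. -/
theorem Red_centre (A B : ℤ) (hA : 0 < A) :
    ∃ k : ℤ, 2 * (B + k * A) ≤ A ∧ -A ≤ 2 * (B + k * A) := by
  refine ⟨-((2 * B + A) / (2 * A)), ?_⟩
  have h1 := Int.emod_add_mul_ediv (2 * B + A) (2 * A)
  have h2 := Int.emod_nonneg (2 * B + A) (by omega : (2 * A) ≠ 0)
  have h3 := Int.emod_lt_of_pos (2 * B + A) (by omega : 0 < 2 * A)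
  constructor <;> nlinarith

/-- Reduction of positive binary forms: after a unimodular substitution the leading coefficient
`A'` satisfies `3 A'^2 ≤ 4 D`. -/
theorem Red_binary (m : ℕ) : ∀ A B C D : ℤ, A.toNat = m → 0 < A → A * C - B ^ 2 = D → 0 < D →
    ∃ α β γ δ : ℤ, α * δ - β * γ = 1 ∧ 0 < A * α ^ 2 + 2 * B * α * γ + C * γ ^ 2 ∧
      3 * (A * α ^ 2 + 2 * B * α * γ + C * γ ^ 2) ^ 2 ≤ 4 * D := by
  induction m using Nat.strong_induction_on with
  | _ m ih =>
    intro A B C D hm hA hD hD0
    by_cases h : 3 * A ^ 2 ≤ 4 * D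
    · exact ⟨1, 0, 0, 1, by ring, by nlinarith, by nlinarith⟩
    · push Not at h
      obtain ⟨k, hk1, hk2⟩ := Red_centre A B hA
      set B' := B + k * A with hB'
      set C' := A * k ^ 2 + 2 * B * k + C with hC'
      have e1 : A * C' = D + B' ^ 2 := by
        rw [hC', hB', ← hD]; ring
      have e2 : 4 * B' ^ 2 ≤ A ^ 2 := by nlinarith
      have hC1 : C' < A := by nlinarith
      have hC0 : 0 < C' := by
        by_contra hc
        push Not at hc
        nlinarith [sq_nonneg B']
      obtain ⟨α, β, γ, δ, hu, hp, hb⟩ := ih C'.toNat (by omega) C' (-B') A D rfl hC0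
        (by linarith [e1]) hD0
      refine ⟨k * α - γ, k * β - δ, α, β, by linarith, ?_, ?_⟩
      · have : A * (k * α - γ) ^ 2 + 2 * B * (k * α - γ) * α + C * α ^ 2
            = C' * α ^ 2 + 2 * (-B') * α * γ + A * γ ^ 2 := by rw [hC', hB']; ring
        rw [this]; exact hp
      · have : A * (k * α - γ) ^ 2 + 2 * B * (k * α - γ) * α + C * α ^ 2
            = C' * α ^ 2 + 2 * (-B') * α * γ + A * γ ^ 2 := by rw [hC', hB']; ring
        rw [this]; exact hb

/-- A positive binary form of determinant one only takes values that are sums of two squares. -/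
theorem Red_twoSq (A B C : ℤ) (hA : 0 < A) (hD : A * C - B ^ 2 = 1) (y z : ℤ) :
    ∃ u v : ℤ, A * y ^ 2 + 2 * B * y * z + C * z ^ 2 = u ^ 2 + v ^ 2 := by
  obtain ⟨α, β, γ, δ, hu, hp, hb⟩ := Red_binary A.toNat A B C 1 rfl hA hD one_pos
  set A' := A * α ^ 2 + 2 * B * α * γ + C * γ ^ 2 with hA'
  have h1 : A' = 1 := by nlinarith
  set B' := A * α * β + B * (α * δ + β * γ) + C * γ * δ with hB'
  set C' := A * β ^ 2 + 2 * B * β * δ + C * δ ^ 2 with hC'
  have hdet : A' * C' - B' ^ 2 = 1 := by
    have : A' * C' - B' ^ 2 = (A * C - B ^ 2) * (α * δ - β * γ) ^ 2 := by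
      rw [hA', hB', hC']; ring
    rw [this, hD, hu]; ring
  have hC1 : C' = 1 + B' ^ 2 := by rw [h1] at hdet; linarith
  refine ⟨(δ * y - β * z) + B' * (-γ * y + α * z), -γ * y + α * z, ?_⟩
  have key : A * ((α * δ - β * γ) * y) ^ 2 + 2 * B * ((α * δ - β * γ) * y) * ((α * δ - β * γ) * z)
      + C * ((α * δ - β * γ) * z) ^ 2
      = A' * (δ * y - β * z) ^ 2 + 2 * B' * (δ * y - β * z) * (-γ * y + α * z)
        + C' * (-γ * y + α * z) ^ 2 := by
    rw [hA', hB', hC']; ring
  rw [hu] at key
  simp only [one_mul] at key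
  rw [key, h1, hC1]
  ring

/-- A positive ternary form of determinant one only takes values that are sums of three
squares. -/
theorem Red_ternary (m : ℕ) : ∀ a b c p q r : ℤ, a.toNat = m → 0 < a → 0 < a * b - r ^ 2 →
    a * b * c + 2 * p * q * r - a * p ^ 2 - b * q ^ 2 - c * r ^ 2 = 1 → ∀ x y z : ℤ,
    ThreeSq (a * x ^ 2 + b * y ^ 2 + c * z ^ 2 + 2 * p * y * z + 2 * q * x * z + 2 * r * x * y) := by
  induction m using Nat.strong_induction_on with
  | _ m ih =>
    intro a b c p q r hm ha hG hdet x y z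
    by_cases h1 : a = 1
    · subst h1
      obtain ⟨u, v, huv⟩ := Red_twoSq (b - r ^ 2) (p - q * r) (c - q ^ 2) (by linarith)
        (by linear_combination hdet) y z
      refine ⟨x + r * y + q * z, u, v, ?_⟩
      linear_combination huv
    · have ha2 : 2 ≤ a := by omega
      obtain ⟨α, β, γ, δ, hu, hp, hb⟩ := Red_binary (a * b - r ^ 2).toNat (a * b - r ^ 2)
        (a * p - q * r) (a * c - q ^ 2) a rfl hG (by linear_combination a * hdet) ha
      set G := (a * b - r ^ 2) * α ^ 2 + 2 * (a * p - q * r) * α * γ + (a * c - q ^ 2) * γ ^ 2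
        with hGdef
      obtain ⟨k, hk1, hk2⟩ := Red_centre a (r * α + q * γ) ha
      set r' := r * α + q * γ + k * a with hr'
      set b' := a * k ^ 2 + 2 * (r * α + q * γ) * k + (b * α ^ 2 + 2 * p * α * γ + c * γ ^ 2)
        with hb'
      have e1 : a * b' = G + r' ^ 2 := by rw [hb', hGdef, hr']; ring
      have e2 : 4 * r' ^ 2 ≤ a ^ 2 := by nlinarith
      have e3 : 4 * G < 3 * a ^ 2 := by
        by_contra hc
        push Not at hc
        have h4 : 0 ≤ 3 * a ^ 2 := by positivity
        have h5 : (3 * a ^ 2) ^ 2 ≤ (4 * G) ^ 2 := pow_le_pow_left₀ h4 hc 2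
        have h6 : 27 * a ^ 4 ≤ 64 * a := by
          have g1 : (3 * a ^ 2) ^ 2 = 9 * a ^ 4 := by ring
          have g2 : (4 * G) ^ 2 = 16 * G ^ 2 := by ring
          rw [g1, g2] at h5
          linarith
        have h7 : 8 ≤ a ^ 3 := by
          calc (8 : ℤ) = 2 ^ 3 := by norm_num
            _ ≤ a ^ 3 := pow_le_pow_left₀ (by norm_num) ha2 3
        have h8 : a * 8 ≤ a * a ^ 3 := mul_le_mul_of_nonneg_left h7 ha.le
        have h9 : a * a ^ 3 = a ^ 4 := by ring
        rw [h9] at h8
        linarith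
      have hb1 : b' < a := by nlinarith
      have hb0 : 0 < b' := by
        by_contra hc
        push Not at hc
        nlinarith [sq_nonneg r']
      have hmain := ih b'.toNat (by omega) b' a (b * β ^ 2 + 2 * p * β * δ + c * δ ^ 2)
        (r * β + q * δ)
        ((b * α * β + p * (α * δ + β * γ) + c * γ * δ) + k * (r * β + q * δ)) r' rfl hb0
        (by nlinarith) (by
          have hh : b' * a * (b * β ^ 2 + 2 * p * β * δ + c * δ ^ 2)
              + 2 * (r * β + q * δ) *
                ((b * α * β + p * (α * δ + β * γ) + c * γ * δ) + k * (r * β + q * δ)) * r'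
              - b' * (r * β + q * δ) ^ 2
              - a * ((b * α * β + p * (α * δ + β * γ) + c * γ * δ) + k * (r * β + q * δ)) ^ 2
              - (b * β ^ 2 + 2 * p * β * δ + c * δ ^ 2) * r' ^ 2
              = (a * b * c + 2 * p * q * r - a * p ^ 2 - b * q ^ 2 - c * r ^ 2)
                * (α * δ - β * γ) ^ 2 := by
            rw [hb', hr']; ring
          rw [hh, hdet, hu]; ring)
        (δ * y - β * z) (x - k * (δ * y - β * z)) (-γ * y + α * z)
      obtain ⟨s, t, w, hs⟩ := hmain
      refine ⟨s, t, w, ?_⟩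
      rw [← hs]
      have key : a * x ^ 2 + b * ((α * δ - β * γ) * y) ^ 2 + c * ((α * δ - β * γ) * z) ^ 2
          + 2 * p * ((α * δ - β * γ) * y) * ((α * δ - β * γ) * z)
          + 2 * q * x * ((α * δ - β * γ) * z) + 2 * r * x * ((α * δ - β * γ) * y)
          = b' * (δ * y - β * z) ^ 2 + a * (x - k * (δ * y - β * z)) ^ 2
            + (b * β ^ 2 + 2 * p * β * δ + c * δ ^ 2) * (-γ * y + α * z) ^ 2
            + 2 * (r * β + q * δ) * (x - k * (δ * y - β * z)) * (-γ * y + α * z)
            + 2 * ((b * α * β + p * (α * δ + β * γ) + c * γ * δ) + k * (r * β + q * δ))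
              * (δ * y - β * z) * (-γ * y + α * z)
            + 2 * r' * (δ * y - β * z) * (x - k * (δ * y - β * z)) := by
        rw [hb', hr']; ring
      rw [hu] at key
      simp only [one_mul] at key
      exact key

theorem red : Stmt_Red := by
  intro n d t a hn hd h
  have h1 : 0 < d * n - 1 := by nlinarith
  have ha : 0 < a := by
    by_contra hc
    push Not at hc
    nlinarith [sq_nonneg t]
  have := Red_ternary a.toNat a (d * n - 1) n 0 1 t rfl ha (by linarith)
    (by linear_combination (-n) * h) 0 0 1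
  simpa using this

end Pool.SixCubes
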