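import Mathlib

/-!
Frozen statements for the campaign on MP_9937dc_nt (sums of six positive cubes):
every sufficiently large integer that is a positive cube or a sum of two positive
cubes is a sum of six positive cubes.
Paper proof: /team-store/SixCubes_paper.md
-/

namespace Pool.SixCubes

/-- `n` is a sum of three integer squares. -/
def ThreeSq (n : ℤ) : Prop := ∃ x y z : ℤ, n = x ^ 2 + y ^ 2 + z ^ 2

/-- `n` is a sum of five positive cubes. -/
def Five (n : ℕ) : Prop := ∃ a b c d e : ℕ, 0 < a ∧ 0 < b ∧ 0 < c ∧ 0 < d ∧ 0 < e ∧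
  n = a ^ 3 + b ^ 3 + c ^ 3 + d ^ 3 + e ^ 3

/-- `n` is a sum of six positive cubes. -/
def Six (n : ℕ) : Prop := ∃ a b c d e f : ℕ, 0 < a ∧ 0 < b ∧ 0 < c ∧ 0 < d ∧ 0 < e ∧ 0 < f ∧
  n = a ^ 3 + b ^ 3 + c ^ 3 + d ^ 3 + e ^ 3 + f ^ 3

/-- Module `Red`: Gauss reduction of positive ternary forms of determinant one. -/
def Stmt_Red : Prop := ∀ n d t a : ℤ, 2 ≤ n → 0 < d → t ^ 2 + d = a * (d * n - 1) → ThreeSq n

/-- Module `QRa`: the residue condition for `n` congruent to 2 modulo 4. -/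
def Stmt_QRa : Prop := ∀ n : ℕ, n % 4 = 2 →
  ∃ d t a : ℤ, 0 < d ∧ t ^ 2 + d = a * (d * n - 1)

/-- Module `QRb`: the residue condition for `n` congruent to 3 modulo 8. -/
def Stmt_QRb : Prop := ∀ n : ℕ, n % 8 = 3 →
  ∃ d t a : ℤ, 0 < d ∧ t ^ 2 + d = a * (d * n - 1)

/-- Three squares theorem for the class 2 modulo 4. -/
def Stmt_T2 : Prop := ∀ n : ℕ, n % 4 = 2 → ThreeSq n

/-- Three squares theorem for the class 3 modulo 8. -/
def Stmt_T3 : Prop := ∀ n : ℕ, n % 8 = 3 → ThreeSq n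

/-- Module `Fi`: all large odd cubes are sums of five positive cubes. -/
def Stmt_Five : Prop := ∃ M : ℕ, ∀ m : ℕ, M ≤ m → m % 2 = 1 → Five (m ^ 3)

/-- Module `Si`: all large odd cubes are sums of six positive cubes. -/
def Stmt_Six : Prop := ∃ M : ℕ, ∀ m : ℕ, M ≤ m → m % 2 = 1 → Six (m ^ 3)

/-- Module `Fin`: the final statement. -/
def Stmt_Main : Prop := ∃ N : ℕ, ∀ n : ℕ, N ≤ n →
  (∃ x y : ℕ, 0 < x ∧ n = x ^ 3 + y ^ 3) → Six n

end Pool.SixCubes
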